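import Pool.Agent.Helper16.KS.St

/-!
# Project KS: first moments for the candidates (`Cand1`, `Mult1`, `MassC1`)
-/

set_option autoImplicit false
open scoped Classical

namespace Pool.Agent.Helper82.KS

open Pool.Agent.Helper16.KS

/-! ## Elementary counting -/

theorem card_dvd (a h M : ℕ) (hM : 0 < M) :
    (((Finset.Ico a (a + h)).filter (fun n => M ∣ n)).card : ℝ) ≤ (h : ℝ) / M + 1 := by
  have h1 := Nat.Ico_filter_modEq_card a (a + h) hM 0
  have h2 : (Finset.Ico a (a + h)).filter (fun n => M ∣ n) =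
      (Finset.Ico a (a + h)).filter (fun n => n ≡ 0 [MOD M]) := by
    apply Finset.filter_congr
    intro x _
    exact (Nat.modEq_zero_iff_dvd).symm
  rw [h2]
  have h3 : ((((Finset.Ico a (a + h)).filter (fun n => n ≡ 0 [MOD M])).card : ℤ) : ℝ) =
      ((max (⌈(((a + h : ℕ) : ℚ) - ((0 : ℕ) : ℚ)) / (M : ℚ)⌉ - ⌈((a : ℚ) - ((0 : ℕ) : ℚ)) / (M : ℚ)⌉) 0 : ℤ) : ℝ) := by
    rw [h1]
  rw [Int.cast_natCast] at h3
  rw [h3]
  have hMq : (0 : ℚ) < M := by exact_mod_cast hM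
  have hMr : (0 : ℝ) < M := by exact_mod_cast hM
  have hq : ((max (⌈(((a + h : ℕ) : ℚ) - ((0 : ℕ) : ℚ)) / (M : ℚ)⌉ -
      ⌈((a : ℚ) - ((0 : ℕ) : ℚ)) / (M : ℚ)⌉) 0 : ℤ) : ℚ) ≤ (h : ℚ) / M + 1 := by
    push_cast
    apply max_le
    · have e1 := Int.ceil_lt_add_one ((((a + h : ℕ) : ℚ) - ((0 : ℕ) : ℚ)) / (M : ℚ))
      have e2 := Int.le_ceil (((a : ℚ) - ((0 : ℕ) : ℚ)) / (M : ℚ))
      push_cast at e1 e2 ⊢
      have e3 : ((a : ℚ) + h - 0) / M = (a : ℚ) / M + h / M := by ring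
      have e4 : ((a : ℚ) - 0) / M = (a : ℚ) / M := by ring
      rw [e3] at e1 ⊢
      rw [e4] at e2 ⊢
      linarith
    · positivity
  have : ((max (⌈(((a + h : ℕ) : ℚ) - ((0 : ℕ) : ℚ)) / (M : ℚ)⌉ -
      ⌈((a : ℚ) - ((0 : ℕ) : ℚ)) / (M : ℚ)⌉) 0 : ℤ) : ℚ) ≤ (((h : ℚ) / M + 1 : ℚ)) := hq
  have h5 : (((max (⌈(((a + h : ℕ) : ℚ) - ((0 : ℕ) : ℚ)) / (M : ℚ)⌉ -
      ⌈((a : ℚ) - ((0 : ℕ) : ℚ)) / (M : ℚ)⌉) 0 : ℤ) : ℚ) : ℝ) ≤ (((h : ℚ) / M + 1 : ℚ) : ℝ) := by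
    exact_mod_cast this
  push_cast at h5 ⊢
  exact h5

variable (S : Sys)

theorem ec_le (k : ℕ) : (ec S.d k : ℝ) ≤ k * (1/2 - S.d) := by
  unfold ec
  apply Nat.floor_le
  have h1 := S.d_pos
  have h2 := S.d_le
  have h3 := S.c_le
  have h4 := S.eta_le
  have h5 := S.del_le
  have hk : (0 : ℝ) ≤ k := Nat.cast_nonneg k
  apply mul_nonneg hk
  norm_num at h5 h2 ⊢
  nlinarith

theorem c_pos : 0 < S.c := by
  have h1 := S.d_pos
  have h2 := S.d_le
  norm_num at h2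
  nlinarith

theorem d_small : S.d ≤ 1 / 10 ^ 7 := by
  have h1 := S.d_pos
  have h2 := S.d_le
  have h3 := S.c_le
  have h4 := S.eta_le
  have h5 := S.del_le
  norm_num at h2 h5 ⊢
  linarith

theorem ec_gt (k : ℕ) : (k : ℝ) * (1/2 - S.d) - 1 < ec S.d k := by
  unfold ec
  have := Nat.lt_floor_add_one ((k : ℝ) * (1/2 - S.d))
  linarith

theorem ec_le_nat (k : ℕ) : ec S.d k ≤ k := by
  have h := ec_le S k
  have h1 := S.d_pos
  have hk : (0 : ℝ) ≤ k := Nat.cast_nonneg k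
  have : (ec S.d k : ℝ) ≤ k := by nlinarith
  exact_mod_cast this

theorem cell_bd {k j n : ℕ} (hj : j < nc S.d k) (hn : n ∈ cell S.d k j) :
    2 ^ k ≤ n ∧ n < 2 ^ (k + 1) := by
  unfold cell at hn
  rw [Finset.mem_Ico] at hn
  refine ⟨le_trans (Nat.le_add_right _ _) hn.1, lt_of_lt_of_le hn.2 ?_⟩
  unfold nc at hj
  have h1 : (j + 1) * 2 ^ ec S.d k ≤ 2 ^ (k - ec S.d k) * 2 ^ ec S.d k :=
    Nat.mul_le_mul_right _ hj
  rw [← pow_add, Nat.sub_add_cancel (ec_le_nat S k)] at h1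
  rw [pow_succ]
  omega

theorem two_ec_le (k : ℕ) : ((2 ^ ec S.d k : ℕ) : ℝ) ≤ (2 : ℝ) ^ ((k : ℝ) * (1/2 - S.d)) := by
  push_cast
  rw [← Real.rpow_natCast]
  exact Real.rpow_le_rpow_of_exponent_le (by norm_num) (ec_le S k)

theorem two_ec_ge (k : ℕ) : (2 : ℝ) ^ ((k : ℝ) * (1/2 - S.d) - 1) ≤ ((2 ^ ec S.d k : ℕ) : ℝ) := by
  push_cast
  rw [← Real.rpow_natCast]
  exact Real.rpow_le_rpow_of_exponent_le (by norm_num) (ec_gt S k).le

/-! ## The parameters -/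

theorem tau_pos : 0 < S.tau := by
  unfold Sys.tau Sys.ep
  have h1 := S.d_pos
  have h2 := c_pos S
  have h3 : 0 < S.eta := by have := S.c_le; linarith
  positivity

theorem tau_le : S.tau ≤ S.d / 10 ^ 4 := by
  unfold Sys.tau Sys.ep
  have h1 := S.d_pos
  have h2 := c_pos S
  have h3 : 0 < S.eta := by have := S.c_le; linarith
  have h4 : S.eta ≤ 1 := by have := S.eta_le; have := S.del_le; norm_num at *; linarith
  have h5 : S.c ≤ 1 := by have := S.c_le; linarith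
  have : S.c * S.eta ≤ 1 := by nlinarith
  have : S.c * S.eta * S.d ≤ 1 * S.d := mul_le_mul_of_nonneg_right this h1.le
  rw [one_mul] at this
  exact div_le_div_of_nonneg_right this (by norm_num)

theorem del_pos : 0 < S.del := by
  have := S.eta_le; have := S.c_le; have := c_pos S; linarith

theorem hh_le_half : S.hh ≤ 1/2 := by
  unfold Sys.hh Sys.s
  have := tau_le S; have := S.d_pos; have := del_pos S
  norm_num at *
  linarith

theorem hh_nonneg : 0 ≤ S.hh := by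
  unfold Sys.hh Sys.s
  have := tau_pos S; have := d_small S; have := S.del_le
  norm_num at *
  linarith

theorem hh_ge : 1/2 - S.del - S.d / 2 ≤ S.hh := by
  unfold Sys.hh Sys.s
  have := tau_pos S
  linarith

/-! ## Conditional probabilities of squarefree numbers -/

/-- product of a set of integers -/
noncomputable def pA (A : Finset ℕ) : ℕ := ∏ p ∈ A, p

theorem pA_mul {m : ℕ} (hm : Squarefree m) {A : Finset ℕ} (hA : A ⊆ m.primeFactors) :
    pA A * pA (m.primeFactors \ A) = m := by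
  unfold pA
  rw [mul_comm, Finset.prod_sdiff hA]
  exact Nat.prod_primeFactors_of_squarefree hm

theorem pA_pos {m : ℕ} {A : Finset ℕ} (hA : A ⊆ m.primeFactors) : 0 < pA A := by
  unfold pA
  apply Finset.prod_pos
  intro p hp
  exact (Nat.prime_of_mem_primeFactors (hA hp)).pos

theorem pc_eq (A : Finset ℕ) (D : Finset ℕ) : S.pc A D = ((pA (D \ A) : ℕ) : ℝ) ^ (-S.hh) := by
  unfold Sys.pc Sys.pr pA
  push_cast
  rw [Real.finsetProd_rpow]
  intro i _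
  positivity

theorem pc_div_pr {m : ℕ} (hm : Squarefree m) {A : Finset ℕ} (hA : A ⊆ m.primeFactors) :
    S.pc A m.primeFactors / S.pr m = ((pA A : ℕ) : ℝ) ^ S.hh := by
  rw [pc_eq]
  have h1 : ((pA A : ℕ) : ℝ) * ((pA (m.primeFactors \ A) : ℕ) : ℝ) = m := by
    exact_mod_cast pA_mul hm hA
  have h2 : 0 < ((pA A : ℕ) : ℝ) := by exact_mod_cast pA_pos hA
  have h3 : 0 < ((pA (m.primeFactors \ A) : ℕ) : ℝ) := by
    exact_mod_cast pA_pos (m := m) Finset.sdiff_subset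
  unfold Sys.pr
  rw [← h1, Real.mul_rpow h2.le h3.le, Real.rpow_neg h2.le]
  have h4 : 0 < ((pA (m.primeFactors \ A) : ℕ) : ℝ) ^ (-S.hh) := Real.rpow_pos_of_pos h3 _
  have h5 : 0 < ((pA A : ℕ) : ℝ) ^ S.hh := Real.rpow_pos_of_pos h2 _
  field_simp

/-- number of candidates of a cell in a window whose `m` is divisible by `M` -/
theorem card_cand {k j : ℕ} (hk : S.K ≤ k) (hj : j < nc S.d k) (hb : S.bad k j)
    (T : Finset (ℕ × ℕ)) (hT : T ⊆ S.Cand k j) (a h M : ℕ) (hM : 0 < M)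
    (hw : ∀ x ∈ T, a ≤ x.1 * x.2 ∧ x.1 * x.2 < a + h ∧ M ∣ x.1 * x.2) :
    (T.card : ℝ) ≤ (h : ℝ) / M + 1 := by
  refine le_trans ?_ (card_dvd a h M hM)
  have : T.card ≤ ((Finset.Ico a (a + h)).filter (fun n => M ∣ n)).card := by
    apply Finset.card_le_card_of_injOn (fun x => x.1 * x.2)
    · intro x hx
      have := hw x hx
      simp only [Finset.coe_filter, Finset.mem_Ico, Set.mem_ofPred_eq]
      exact ⟨⟨this.1, this.2.1⟩, this.2.2⟩
    · intro x hx y hy hxy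
      exact S.inj k hk j hj hb x (hT hx) y (hT hy) hxy
  exact_mod_cast this

theorem mem_badc {k j : ℕ} : j ∈ S.badc k ↔ j < nc S.d k ∧ S.bad k j := by
  unfold Sys.badc
  rw [Finset.mem_filter, Finset.mem_range]

/-- properties of the divisor `pA A` of a candidate -/
theorem pA_facts {k j : ℕ} (hk : S.K ≤ k) (hj : j < nc S.d k) (hb : S.bad k j)
    {x : ℕ × ℕ} (hx : x ∈ S.Cand k j) {A : Finset ℕ} (hA : A ⊆ x.2.primeFactors) :
    Squarefree x.2 ∧ 1 < x.2 ∧ 0 < x.1 ∧ 0 < pA A ∧ pA A ∣ x.2 ∧ x.1 * x.2 ∈ cell S.d k j ∧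
    ((pA A : ℕ) : ℝ) ^ S.hh ≤ (2 : ℝ) ^ ((1/2 - S.u (S.cls k j) - S.c) * k) := by
  obtain ⟨h1, h2, h3, h4, h5, h6, h7⟩ := S.cand k hk j hj hb x hx
  have hsq : Squarefree x.2 := h3.squarefree_of_dvd (Dvd.intro_left _ rfl)
  have hd : pA A ∣ x.2 := ⟨_, (pA_mul hsq hA).symm⟩
  have hpos : 0 < pA A := pA_pos hA
  refine ⟨hsq, h4, h1.pos, hpos, hd, h5, ?_⟩
  have hle : ((pA A : ℕ) : ℝ) ≤ x.2 := by exact_mod_cast Nat.le_of_dvd (by omega) hd
  have h8 : (1 : ℝ) ≤ x.2 := by exact_mod_cast h4.le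
  calc ((pA A : ℕ) : ℝ) ^ S.hh ≤ (x.2 : ℝ) ^ S.hh :=
        Real.rpow_le_rpow (by positivity) hle (hh_nonneg S)
    _ ≤ (x.2 : ℝ) ^ (1/2 + S.del) := by
        apply Real.rpow_le_rpow_of_exponent_le h8
        have := hh_le_half S; have := del_pos S; linarith
    _ ≤ _ := h7

theorem pA_small {k j : ℕ} (hk : S.K ≤ k) (hj : j < nc S.d k) (hb : S.bad k j)
    {x : ℕ × ℕ} (hx : x ∈ S.Cand k j) {A : Finset ℕ} (hA : A ⊆ x.2.primeFactors)
    (hne : A.Nonempty) {θ : ℝ} (hθ : θ ≤ -(1/2 - S.del)) :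
    ((pA A : ℕ) : ℝ) ^ θ ≤ (2 : ℝ) ^ (-(S.u (S.cls k j) + S.c) * k) := by
  obtain ⟨h1, h2, h3, h4, h5, h6, h7⟩ := S.cand k hk j hj hb x hx
  obtain ⟨p, hp⟩ := hne
  have hpp := Nat.prime_of_mem_primeFactors (hA hp)
  have hpd : p ∣ x.1 * x.2 := (Nat.dvd_of_mem_primeFactors (hA hp)).mul_left _
  have hpA : p ≤ pA A := Nat.le_of_dvd (pA_pos hA) (Finset.dvd_prod_of_mem _ hp)
  have hp0 : (0 : ℝ) < p := by exact_mod_cast hpp.pos
  have hp1 : (1 : ℝ) ≤ p := by exact_mod_cast hpp.one_lt.le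
  have hdel := S.del_le
  have hneg : θ ≤ 0 := by norm_num at hdel; linarith
  calc ((pA A : ℕ) : ℝ) ^ θ ≤ (p : ℝ) ^ θ :=
        Real.rpow_le_rpow_of_nonpos hp0 (by exact_mod_cast hpA) hneg
    _ ≤ (p : ℝ) ^ (-(1/2 - S.del)) := Real.rpow_le_rpow_of_exponent_le hp1 hθ
    _ = ((p : ℝ) ^ (1/2 - S.del))⁻¹ := Real.rpow_neg hp0.le _
    _ ≤ ((2 : ℝ) ^ ((S.u (S.cls k j) + S.c) * k))⁻¹ :=
        inv_anti₀ (by positivity) (h6 p hpp hpd)
    _ = _ := by rw [← Real.rpow_neg (by norm_num)]; congr 1; ring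

theorem sum_win {k j : ℕ} (hk : S.K ≤ k) (hj : j < nc S.d k) (hb : S.bad k j)
    (A : Finset ℕ) (T : Finset (ℕ × ℕ)) (hT : T ⊆ S.Cand k j) (a h : ℕ)
    (hw : ∀ x ∈ T, A ⊆ x.2.primeFactors ∧ a ≤ x.1 * x.2 ∧ x.1 * x.2 < a + h) (hne : T.Nonempty) :
    ∑ x ∈ T, S.pc A x.2.primeFactors / S.pr x.2 ≤
      (h : ℝ) * ((pA A : ℕ) : ℝ) ^ (S.hh - 1) + ((pA A : ℕ) : ℝ) ^ S.hh := by
  obtain ⟨x0, hx0⟩ := hne
  obtain ⟨f1, f2, f3, f4, f5, f6, f7⟩ := pA_facts S hk hj hb (hT hx0) (hw x0 hx0).1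
  have e1 : ∀ x ∈ T, S.pc A x.2.primeFactors / S.pr x.2 = ((pA A : ℕ) : ℝ) ^ S.hh := by
    intro x hx
    exact pc_div_pr S (pA_facts S hk hj hb (hT hx) (hw x hx).1).1 (hw x hx).1
  rw [Finset.sum_congr rfl e1, Finset.sum_const, nsmul_eq_mul]
  have hM : (0 : ℝ) < ((pA A : ℕ) : ℝ) := by exact_mod_cast f4
  have hc := card_cand S hk hj hb T hT a h (pA A) f4 (by
    intro x hx
    obtain ⟨g1, g2, g3, g4, g5, g6, g7⟩ := pA_facts S hk hj hb (hT hx) (hw x hx).1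
    exact ⟨(hw x hx).2.1, (hw x hx).2.2, g5.mul_left _⟩)
  have hpos : 0 < ((pA A : ℕ) : ℝ) ^ S.hh := Real.rpow_pos_of_pos hM _
  calc (T.card : ℝ) * ((pA A : ℕ) : ℝ) ^ S.hh
      ≤ ((h : ℝ) / (pA A : ℕ) + 1) * ((pA A : ℕ) : ℝ) ^ S.hh :=
        mul_le_mul_of_nonneg_right hc hpos.le
    _ = _ := by
        rw [Real.rpow_sub_one hM.ne']
        field_simp

theorem cand1 : Cand1 := by
  intro S
  refine ⟨max S.K (max ⌈100 / S.c⌉₊ 100), ?_⟩
  intro k hk0 j hj A hA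
  have hkK : S.K ≤ k := le_trans (le_max_left _ _) hk0
  have hk1 : ⌈100 / S.c⌉₊ ≤ k := le_trans (le_trans (le_max_left _ _) (le_max_right _ _)) hk0
  have hk2 : 100 ≤ k := le_trans (le_trans (le_max_right _ _) (le_max_right _ _)) hk0
  have hcp := c_pos S
  have hck : 100 ≤ S.c * k := by
    have : 100 / S.c ≤ k := le_trans (Nat.le_ceil _) (by exact_mod_cast hk1)
    rw [div_le_iff₀ hcp] at this
    linarith
  have hk2r : (100 : ℝ) ≤ k := by exact_mod_cast hk2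
  rw [mem_badc] at hj
  obtain ⟨hj, hb⟩ := hj
  have hdk : S.d * k ≤ S.c * k / 10 ^ 5 := by
    have := S.d_le
    have hk' : (0 : ℝ) ≤ k := Nat.cast_nonneg k
    calc S.d * k ≤ (S.c / 10 ^ 5) * k := mul_le_mul_of_nonneg_right this hk'
      _ = _ := by ring
  have hexp : S.hh - 1 ≤ -(1/2 - S.del) := by
    have := hh_le_half S; have := del_pos S; linarith
  constructor
  · set T := (S.Cand k j).filter (fun x => A ⊆ x.2.primeFactors) with hTdef
    rcases T.eq_empty_or_nonempty with hT | hT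
    · rw [hT, Finset.sum_empty]; positivity
    have hTs : T ⊆ S.Cand k j := Finset.filter_subset _ _
    have hTA : ∀ x ∈ T, A ⊆ x.2.primeFactors := fun x hx => (Finset.mem_filter.1 hx).2
    have hs := sum_win S hkK hj hb A T hTs (2 ^ k + j * 2 ^ ec S.d k) (2 ^ ec S.d k) (by
      intro x hx
      obtain ⟨g1, g2, g3, g4, g5, g6, g7⟩ := pA_facts S hkK hj hb (hTs hx) (hTA x hx)
      unfold cell at g6
      rw [Finset.mem_Ico] at g6
      refine ⟨hTA x hx, g6.1, ?_⟩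
      have := g6.2
      rw [add_mul, one_mul] at this
      omega) hT
    obtain ⟨x0, hx0⟩ := hT
    have b1 := pA_small S hkK hj hb (hTs hx0) (hTA x0 hx0) hA hexp
    have b2 := (pA_facts S hkK hj hb (hTs hx0) (hTA x0 hx0)).2.2.2.2.2.2
    set u := S.u (S.cls k j)
    have hE : ((2 ^ ec S.d k : ℕ) : ℝ) = (2 : ℝ) ^ ec S.d k := by push_cast; rfl
    rw [hE] at hs
    have hEpos : (0 : ℝ) < (2 : ℝ) ^ ec S.d k := by positivity
    have hlow := two_ec_ge S k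
    rw [hE] at hlow
    have t1 : (2 : ℝ) ^ ec S.d k * ((pA A : ℕ) : ℝ) ^ (S.hh - 1) ≤
        (1/2) * ((2 : ℝ) ^ (-(u + S.c / 2) * k) * 2 ^ ec S.d k) := by
      have : (2 : ℝ) ^ (-(u + S.c) * k) ≤ (1/2) * (2 : ℝ) ^ (-(u + S.c / 2) * k) := by
        have e : (1/2 : ℝ) = (2 : ℝ) ^ (-1 : ℝ) := by rw [Real.rpow_neg_one]; norm_num
        rw [e, ← Real.rpow_add (by norm_num)]
        apply Real.rpow_le_rpow_of_exponent_le (by norm_num)
        nlinarith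
      calc (2 : ℝ) ^ ec S.d k * ((pA A : ℕ) : ℝ) ^ (S.hh - 1)
          ≤ (2 : ℝ) ^ ec S.d k * ((1/2) * (2 : ℝ) ^ (-(u + S.c / 2) * k)) :=
            mul_le_mul_of_nonneg_left (le_trans b1 this) hEpos.le
        _ = _ := by ring
    have t2 : ((pA A : ℕ) : ℝ) ^ S.hh ≤
        (1/2) * ((2 : ℝ) ^ (-(u + S.c / 2) * k) * 2 ^ ec S.d k) := by
      refine le_trans b2 ?_
      have : (1/2) * ((2 : ℝ) ^ (-(u + S.c / 2) * k) * (2 : ℝ) ^ ((k : ℝ) * (1/2 - S.d) - 1)) ≤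
          (1/2) * ((2 : ℝ) ^ (-(u + S.c / 2) * k) * 2 ^ ec S.d k) := by
        apply mul_le_mul_of_nonneg_left _ (by norm_num)
        exact mul_le_mul_of_nonneg_left hlow (by positivity)
      refine le_trans ?_ this
      have e : (1/2 : ℝ) = (2 : ℝ) ^ (-1 : ℝ) := by rw [Real.rpow_neg_one]; norm_num
      rw [e, ← Real.rpow_add (by norm_num), ← Real.rpow_add (by norm_num)]
      apply Real.rpow_le_rpow_of_exponent_le (by norm_num)
      rw [← e]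
      nlinarith
    linarith
  · intro a h hh
    set T := (S.Cand k j).filter
      (fun y => A ⊆ y.2.primeFactors ∧ a ≤ y.1 * y.2 ∧ y.1 * y.2 < a + h) with hTdef
    rcases T.eq_empty_or_nonempty with hT | hT
    · rw [hT, Finset.sum_empty]; positivity
    have hTs : T ⊆ S.Cand k j := Finset.filter_subset _ _
    have hTA : ∀ x ∈ T, A ⊆ x.2.primeFactors ∧ a ≤ x.1 * x.2 ∧ x.1 * x.2 < a + h :=
      fun x hx => (Finset.mem_filter.1 hx).2
    have hs := sum_win S hkK hj hb A T hTs a h hTA hT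
    obtain ⟨x0, hx0⟩ := hT
    have b1 := pA_small S hkK hj hb (hTs hx0) (hTA x0 hx0).1 hA hexp
    obtain ⟨f1, f2, f3, f4, f5, f6, f7⟩ := pA_facts S hkK hj hb (hTs hx0) (hTA x0 hx0).1
    obtain ⟨c1, c2, c3, c4, c5, c6, c7⟩ := S.cand k hkK j hj hb x0 (hTs hx0)
    have hu := S.u_ge (S.cls k j)
    have t1 : (h : ℝ) * ((pA A : ℕ) : ℝ) ^ (S.hh - 1) ≤
        (1/2) * ((2 : ℝ) ^ (-(0.01 : ℝ) * k) * h) := by
      have : (2 : ℝ) ^ (-(S.u (S.cls k j) + S.c) * k) ≤ (1/2) * (2 : ℝ) ^ (-(0.01 : ℝ) * k) := by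
        have e : (1/2 : ℝ) = (2 : ℝ) ^ (-1 : ℝ) := by rw [Real.rpow_neg_one]; norm_num
        rw [e, ← Real.rpow_add (by norm_num)]
        apply Real.rpow_le_rpow_of_exponent_le (by norm_num)
        norm_num at hu ⊢
        nlinarith
      calc (h : ℝ) * ((pA A : ℕ) : ℝ) ^ (S.hh - 1)
          ≤ (h : ℝ) * ((1/2) * (2 : ℝ) ^ (-(0.01 : ℝ) * k)) :=
            mul_le_mul_of_nonneg_left (le_trans b1 this) (Nat.cast_nonneg h)
        _ = _ := by ring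
    have t2 : ((pA A : ℕ) : ℝ) ^ S.hh ≤ (1/2) * ((2 : ℝ) ^ (-(0.01 : ℝ) * k) * h) := by
      have hle : ((pA A : ℕ) : ℝ) ≤ x0.2 := by exact_mod_cast Nat.le_of_dvd (by omega) f5
      have hlt := (cell_bd S hj f6).2
      have hlt' : (x0.1 : ℝ) * x0.2 < (2 : ℝ) ^ ((k : ℝ) + 1) := by
        rw [Real.rpow_add (by norm_num), Real.rpow_natCast, Real.rpow_one]
        have : (((x0.1 * x0.2 : ℕ)) : ℝ) < ((2 ^ (k + 1) : ℕ) : ℝ) := by exact_mod_cast hlt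
        push_cast at this
        rw [pow_succ] at this
        exact this
      have hm : (x0.2 : ℝ) ≤ (2 : ℝ) ^ (2 * (k : ℝ) / 3 + 1) := by
        have hq : (0 : ℝ) < (2 : ℝ) ^ ((k : ℝ) / 3) := by positivity
        have h9 : (2 : ℝ) ^ ((k : ℝ) / 3) * x0.2 ≤ (2 : ℝ) ^ ((k : ℝ) + 1) :=
          le_trans (mul_le_mul_of_nonneg_right c2 (Nat.cast_nonneg _)) hlt'.le
        have h10 : (2 : ℝ) ^ ((k : ℝ) + 1) = (2 : ℝ) ^ ((k : ℝ) / 3) * (2 : ℝ) ^ (2 * (k : ℝ) / 3 + 1) := by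
          rw [← Real.rpow_add (by norm_num)]; congr 1; ring
        rw [h10] at h9
        exact le_of_mul_le_mul_left h9 hq
      have h1' : (1 : ℝ) ≤ (pA A : ℕ) := by exact_mod_cast f4
      calc ((pA A : ℕ) : ℝ) ^ S.hh ≤ ((pA A : ℕ) : ℝ) ^ (1/2 : ℝ) :=
            Real.rpow_le_rpow_of_exponent_le h1' (hh_le_half S)
        _ ≤ ((2 : ℝ) ^ (2 * (k : ℝ) / 3 + 1)) ^ (1/2 : ℝ) :=
            Real.rpow_le_rpow (by positivity) (le_trans hle hm) (by norm_num)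
        _ = (2 : ℝ) ^ ((2 * (k : ℝ) / 3 + 1) * (1/2)) := by
            rw [← Real.rpow_mul (by norm_num)]
        _ ≤ (1/2) * ((2 : ℝ) ^ (-(0.01 : ℝ) * k) * (2 : ℝ) ^ (0.38 * (k : ℝ))) := by
            have e : (1/2 : ℝ) = (2 : ℝ) ^ (-1 : ℝ) := by rw [Real.rpow_neg_one]; norm_num
            rw [e, ← Real.rpow_add (by norm_num), ← Real.rpow_add (by norm_num)]
            apply Real.rpow_le_rpow_of_exponent_le (by norm_num)
            rw [← e]
            norm_num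
            linarith
        _ ≤ (1/2) * ((2 : ℝ) ^ (-(0.01 : ℝ) * k) * h) := by
            apply mul_le_mul_of_nonneg_left _ (by norm_num)
            exact mul_le_mul_of_nonneg_left hh (by positivity)
    linarith

/-- summation over the bad cells of a block -/
theorem sum_badc {k : ℕ} (hk : S.K ≤ k) (F : ℕ → ℝ) (B : ℝ) (hB : 0 ≤ B)
    (h : ∀ j ∈ S.badc k, F j ≤ B * (2 : ℝ) ^ (-(S.u (S.cls k j) * k))) :
    ∑ j ∈ S.badc k, F j ≤ 3 * B := by
  calc ∑ j ∈ S.badc k, F j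
      ≤ ∑ j ∈ S.badc k, B * (2 : ℝ) ^ (-(S.u (S.cls k j) * k)) := Finset.sum_le_sum h
    _ = ∑ i : Fin 3, ∑ j ∈ (S.badc k).filter (fun j => S.cls k j = i),
          B * (2 : ℝ) ^ (-(S.u (S.cls k j) * k)) := by
        rw [Finset.sum_fiberwise]
    _ ≤ ∑ i : Fin 3, B := by
        apply Finset.sum_le_sum
        intro i _
        have e1 : ∀ j ∈ (S.badc k).filter (fun j => S.cls k j = i),
            B * (2 : ℝ) ^ (-(S.u (S.cls k j) * k)) = B * (2 : ℝ) ^ (-(S.u i * k)) := by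
          intro j hj
          rw [(Finset.mem_filter.1 hj).2]
        rw [Finset.sum_congr rfl e1, Finset.sum_const, nsmul_eq_mul]
        have hf := S.few k hk i
        have e2 : (S.badc k).filter (fun j => S.cls k j = i) =
            (Finset.range (nc S.d k)).filter (fun j => S.bad k j ∧ S.cls k j = i) := by
          unfold Sys.badc
          rw [Finset.filter_filter]
        rw [e2]
        have hp : (0 : ℝ) < (2 : ℝ) ^ (-(S.u i * k)) := by positivity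
        calc _ ≤ (2 : ℝ) ^ (S.u i * k) * (B * (2 : ℝ) ^ (-(S.u i * k))) :=
              mul_le_mul_of_nonneg_right hf (by positivity)
          _ = B * ((2 : ℝ) ^ (S.u i * k) * (2 : ℝ) ^ (-(S.u i * k))) := by ring
          _ = B := by
              rw [← Real.rpow_add (by norm_num)]
              simp
    _ = 3 * B := by simp

theorem large_k {k : ℕ} (hk1 : ⌈100 / S.c⌉₊ ≤ k) : 100 ≤ S.c * k ∧ 0 ≤ S.d * k ∧
    S.d * k ≤ S.c * k / 10 ^ 5 := by
  have hcp := c_pos S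
  refine ⟨?_, mul_nonneg S.d_pos.le (Nat.cast_nonneg k), ?_⟩
  · have : 100 / S.c ≤ k := le_trans (Nat.le_ceil _) (by exact_mod_cast hk1)
    rw [div_le_iff₀ hcp] at this
    linarith
  · have := S.d_le
    have hk' : (0 : ℝ) ≤ k := Nat.cast_nonneg k
    calc S.d * k ≤ (S.c / 10 ^ 5) * k := mul_le_mul_of_nonneg_right this hk'
      _ = _ := by ring

theorem massC_cell {k j : ℕ} (hk : S.K ≤ k) (hj : j < nc S.d k) (hb : S.bad k j)
    (A : Finset ℕ) :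
    ∑ x ∈ (S.Cand k j).filter (fun x => A ⊆ x.2.primeFactors),
      S.wd k x.2 * (x.1 : ℝ) ^ (-S.s) * S.pc A x.2.primeFactors ≤
    (2 * (2 : ℝ) ^ ((S.s - S.c) * k)) * (2 : ℝ) ^ (-(S.u (S.cls k j) * k)) := by
  set T := (S.Cand k j).filter (fun x => A ⊆ x.2.primeFactors) with hTdef
  rcases T.eq_empty_or_nonempty with hT | hT
  · rw [hT, Finset.sum_empty]; positivity
  have hTs : T ⊆ S.Cand k j := Finset.filter_subset _ _
  have hTA : ∀ x ∈ T, A ⊆ x.2.primeFactors := fun x hx => (Finset.mem_filter.1 hx).2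
  obtain ⟨x0, hx0⟩ := hT
  obtain ⟨f1, f2, f3, f4, f5, f6, f7⟩ := pA_facts S hk hj hb (hTs hx0) (hTA x0 hx0)
  set u := S.u (S.cls k j) with hu
  have hM : (0 : ℝ) < ((pA A : ℕ) : ℝ) := by exact_mod_cast f4
  have hM1 : (1 : ℝ) ≤ ((pA A : ℕ) : ℝ) := by exact_mod_cast f4
  have hs0 : 0 ≤ S.s := by unfold Sys.s; have := S.d_pos; linarith
  have hk0 : (0 : ℝ) ≤ k := Nat.cast_nonneg k
  -- every term
  have hterm : ∀ x ∈ T, S.wd k x.2 * (x.1 : ℝ) ^ (-S.s) * S.pc A x.2.primeFactors ≤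
      (2 : ℝ) ^ ((S.s - 1) * k) * (2 : ℝ) ^ ((1/2 - u - S.c) * k) * ((pA A : ℕ) : ℝ) ^ S.hh := by
    intro x hx
    obtain ⟨g1, g2, g3, g4, g5, g6, g7⟩ := pA_facts S hk hj hb (hTs hx) (hTA x hx)
    obtain ⟨c1, c2, c3, c4, c5, c6, c7⟩ := S.cand k hk j hj hb x (hTs hx)
    have hx2 : (0 : ℝ) < x.2 := by exact_mod_cast (by omega : 0 < x.2)
    have hpr : 0 < S.pr x.2 := Real.rpow_pos_of_pos hx2 _
    have hpc : S.pc A x.2.primeFactors = ((pA A : ℕ) : ℝ) ^ S.hh * S.pr x.2 := by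
      have := pc_div_pr S g1 (hTA x hx)
      rw [div_eq_iff hpr.ne'] at this
      exact this
    rw [hpc]
    unfold Sys.wd Sys.pr
    have hq1 : (x.1 : ℝ) ^ (-S.s) ≤ 1 := by
      apply Real.rpow_le_one_of_one_le_of_nonpos
      · exact_mod_cast g3
      · linarith
    have hq0 : 0 ≤ (x.1 : ℝ) ^ (-S.s) := by positivity
    have hmm : (x.2 : ℝ) ^ (1 - S.s + S.tau) * (x.2 : ℝ) ^ (-S.hh) = (x.2 : ℝ) ^ (1/2 + S.del) := by
      rw [← Real.rpow_add hx2]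
      congr 1
      unfold Sys.hh
      ring
    have hMp : 0 < ((pA A : ℕ) : ℝ) ^ S.hh := Real.rpow_pos_of_pos hM _
    calc (2 : ℝ) ^ ((S.s - 1) * k) * (x.2 : ℝ) ^ (1 - S.s + S.tau) * (x.1 : ℝ) ^ (-S.s) *
          (((pA A : ℕ) : ℝ) ^ S.hh * (x.2 : ℝ) ^ (-S.hh))
        = ((2 : ℝ) ^ ((S.s - 1) * k) * ((x.2 : ℝ) ^ (1 - S.s + S.tau) * (x.2 : ℝ) ^ (-S.hh)) *
          ((pA A : ℕ) : ℝ) ^ S.hh) * (x.1 : ℝ) ^ (-S.s) := by ring
      _ ≤ ((2 : ℝ) ^ ((S.s - 1) * k) * ((x.2 : ℝ) ^ (1 - S.s + S.tau) * (x.2 : ℝ) ^ (-S.hh)) *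
          ((pA A : ℕ) : ℝ) ^ S.hh) * 1 := by
          apply mul_le_mul_of_nonneg_left hq1
          positivity
      _ = (2 : ℝ) ^ ((S.s - 1) * k) * (x.2 : ℝ) ^ (1/2 + S.del) * ((pA A : ℕ) : ℝ) ^ S.hh := by
          rw [hmm, mul_one]
      _ ≤ _ := by
          apply mul_le_mul_of_nonneg_right _ hMp.le
          exact mul_le_mul_of_nonneg_left c7 (by positivity)
  have hcard := card_cand S hk hj hb T hTs (2 ^ k + j * 2 ^ ec S.d k) (2 ^ ec S.d k) (pA A) f4 (by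
    intro x hx
    obtain ⟨g1, g2, g3, g4, g5, g6, g7⟩ := pA_facts S hk hj hb (hTs hx) (hTA x hx)
    unfold cell at g6
    rw [Finset.mem_Ico] at g6
    refine ⟨g6.1, ?_, g5.mul_left _⟩
    have := g6.2
    rw [add_mul, one_mul] at this
    omega)
  have hE := two_ec_le S k
  have hMp : 0 < ((pA A : ℕ) : ℝ) ^ S.hh := Real.rpow_pos_of_pos hM _
  have hprod : (T.card : ℝ) * ((pA A : ℕ) : ℝ) ^ S.hh ≤ 2 * (2 : ℝ) ^ ((k : ℝ) / 2) := by
    have hE2 : ((2 ^ ec S.d k : ℕ) : ℝ) ≤ (2 : ℝ) ^ ((k : ℝ) / 2) := by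
      refine le_trans hE (Real.rpow_le_rpow_of_exponent_le (by norm_num) ?_)
      have := mul_nonneg hk0 S.d_pos.le
      linarith
    have hM2 : ((pA A : ℕ) : ℝ) ^ S.hh ≤ (2 : ℝ) ^ ((k : ℝ) / 2) := by
      refine le_trans f7 (Real.rpow_le_rpow_of_exponent_le (by norm_num) ?_)
      have h1 : 0 ≤ S.u (S.cls k j) := by have := S.u_ge (S.cls k j); norm_num at this; linarith
      have h2 := c_pos S
      nlinarith [mul_nonneg h1 hk0, mul_nonneg h2.le hk0]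
    calc (T.card : ℝ) * ((pA A : ℕ) : ℝ) ^ S.hh
        ≤ (((2 ^ ec S.d k : ℕ) : ℝ) / (pA A : ℕ) + 1) * ((pA A : ℕ) : ℝ) ^ S.hh :=
          mul_le_mul_of_nonneg_right hcard hMp.le
      _ = ((2 ^ ec S.d k : ℕ) : ℝ) * ((pA A : ℕ) : ℝ) ^ (S.hh - 1) + ((pA A : ℕ) : ℝ) ^ S.hh := by
          rw [Real.rpow_sub_one hM.ne']
          field_simp
      _ ≤ ((2 ^ ec S.d k : ℕ) : ℝ) * 1 + ((pA A : ℕ) : ℝ) ^ S.hh := by
          have : ((pA A : ℕ) : ℝ) ^ (S.hh - 1) ≤ 1 := by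
            apply Real.rpow_le_one_of_one_le_of_nonpos hM1
            have := hh_le_half S
            linarith
          have := mul_le_mul_of_nonneg_left this (Nat.cast_nonneg (α := ℝ) (2 ^ ec S.d k))
          linarith
      _ ≤ 2 * (2 : ℝ) ^ ((k : ℝ) / 2) := by linarith
  calc ∑ x ∈ T, S.wd k x.2 * (x.1 : ℝ) ^ (-S.s) * S.pc A x.2.primeFactors
      ≤ ∑ x ∈ T, (2 : ℝ) ^ ((S.s - 1) * k) * (2 : ℝ) ^ ((1/2 - u - S.c) * k) *
          ((pA A : ℕ) : ℝ) ^ S.hh := Finset.sum_le_sum hterm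
    _ = (2 : ℝ) ^ ((S.s - 1) * k) * (2 : ℝ) ^ ((1/2 - u - S.c) * k) *
          ((T.card : ℝ) * ((pA A : ℕ) : ℝ) ^ S.hh) := by
        rw [Finset.sum_const, nsmul_eq_mul]; ring
    _ ≤ (2 : ℝ) ^ ((S.s - 1) * k) * (2 : ℝ) ^ ((1/2 - u - S.c) * k) *
          (2 * (2 : ℝ) ^ ((k : ℝ) / 2)) := mul_le_mul_of_nonneg_left hprod (by positivity)
    _ = 2 * ((2 : ℝ) ^ ((S.s - 1) * k) * (2 : ℝ) ^ ((1/2 - u - S.c) * k) *
          (2 : ℝ) ^ ((k : ℝ) / 2)) := by ring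
    _ = 2 * ((2 : ℝ) ^ ((S.s - S.c) * k) * (2 : ℝ) ^ (-(u * k))) := by
        rw [← Real.rpow_add (by norm_num), ← Real.rpow_add (by norm_num),
          ← Real.rpow_add (by norm_num)]
        congr 2
        ring
    _ = _ := by ring

theorem massC1 : MassC1 := by
  intro S
  refine ⟨max S.K ⌈100 / S.c⌉₊, ?_⟩
  intro k hk0 A
  have hkK : S.K ≤ k := le_trans (le_max_left _ _) hk0
  obtain ⟨hck, hdk0, hdk⟩ := large_k S (le_trans (le_max_right _ _) hk0)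
  have h := sum_badc S hkK (fun j => ∑ x ∈ (S.Cand k j).filter (fun x => A ⊆ x.2.primeFactors),
      S.wd k x.2 * (x.1 : ℝ) ^ (-S.s) * S.pc A x.2.primeFactors)
    (2 * (2 : ℝ) ^ ((S.s - S.c) * k)) (by positivity) (by
      intro j hj
      rw [mem_badc] at hj
      exact massC_cell S hkK hj.1 hj.2 A)
  refine le_trans h ?_
  have h8 : (3 : ℝ) * 2 ≤ (2 : ℝ) ^ (3 : ℝ) := by norm_num
  calc 3 * (2 * (2 : ℝ) ^ ((S.s - S.c) * k)) = (3 * 2) * (2 : ℝ) ^ ((S.s - S.c) * k) := by ring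
    _ ≤ (2 : ℝ) ^ (3 : ℝ) * (2 : ℝ) ^ ((S.s - S.c) * k) :=
        mul_le_mul_of_nonneg_right h8 (by positivity)
    _ = (2 : ℝ) ^ (3 + (S.s - S.c) * k) := by rw [← Real.rpow_add (by norm_num)]
    _ ≤ (2 : ℝ) ^ (-(S.c / 2) * (k : ℝ)) := by
        apply Real.rpow_le_rpow_of_exponent_le (by norm_num)
        unfold Sys.s
        norm_num at hdk
        nlinarith

theorem mult_cell {k j : ℕ} (hk : S.K ≤ k) (hk1 : 1 ≤ k) (hj : j < nc S.d k) (hb : S.bad k j)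
    (q : ℕ) (A : Finset ℕ) :
    ∑ x ∈ (S.Cand k j).filter (fun x => x.1 = q ∧ A ⊂ x.2.primeFactors),
      S.pc A x.2.primeFactors ≤
    (2 * (2 : ℝ) ^ ((S.d - S.c) * k)) * (2 : ℝ) ^ (-(S.u (S.cls k j) * k)) := by
  set T := (S.Cand k j).filter (fun x => x.1 = q ∧ A ⊂ x.2.primeFactors) with hTdef
  rcases T.eq_empty_or_nonempty with hT | hT
  · rw [hT, Finset.sum_empty]; positivity
  have hTs : T ⊆ S.Cand k j := Finset.filter_subset _ _
  have hTq : ∀ x ∈ T, x.1 = q := fun x hx => (Finset.mem_filter.1 hx).2.1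
  have hTA' : ∀ x ∈ T, A ⊂ x.2.primeFactors := fun x hx => (Finset.mem_filter.1 hx).2.2
  have hTA : ∀ x ∈ T, A ⊆ x.2.primeFactors := fun x hx => (hTA' x hx).subset
  obtain ⟨x0, hx0⟩ := hT
  obtain ⟨f1, f2, f3, f4, f5, f6, f7⟩ := pA_facts S hk hj hb (hTs hx0) (hTA x0 hx0)
  obtain ⟨c1, c2, c3, c4, c5, c6, c7⟩ := S.cand k hk j hj hb x0 (hTs hx0)
  have hq0 : 0 < q := by rw [← hTq x0 hx0]; exact f3
  set u := S.u (S.cls k j) with hu
  have hM : (0 : ℝ) < ((pA A : ℕ) : ℝ) := by exact_mod_cast f4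
  have hqr : (0 : ℝ) < q := by exact_mod_cast hq0
  have hk0 : (0 : ℝ) ≤ k := Nat.cast_nonneg k
  have hk1r : (1 : ℝ) ≤ k := by exact_mod_cast hk1
  have hd := S.d_pos
  have hst : 0 ≤ S.s - S.tau := by
    unfold Sys.s; have := tau_le S; norm_num at this; linarith
  -- the cofactor
  have hell : ∀ x ∈ T, 1 ≤ pA (x.2.primeFactors \ A) ∧
      2 ^ k ≤ q * pA A * pA (x.2.primeFactors \ A) ∧ pA (x.2.primeFactors \ A) ≤ x.2 ∧
      ((pA (x.2.primeFactors \ A) : ℕ) : ℝ) ^ (S.s - S.tau) ≤ (2 : ℝ) ^ (S.d * k) ∧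
      ((pA (x.2.primeFactors \ A) : ℕ) : ℝ) ^ (-(1/2 - S.del)) ≤ (2 : ℝ) ^ (-(u + S.c) * k) := by
    intro x hx
    obtain ⟨g1, g2, g3, g4, g5, g6, g7⟩ := pA_facts S hk hj hb (hTs hx) (hTA x hx)
    have hmul := pA_mul g1 (hTA x hx)
    have hpos : 0 < pA (x.2.primeFactors \ A) := pA_pos (m := x.2) Finset.sdiff_subset
    have hle : pA (x.2.primeFactors \ A) ≤ x.2 :=
      Nat.le_of_dvd (by omega) ⟨pA A, by rw [mul_comm]; exact hmul.symm⟩
    have hcb := cell_bd S hj g6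
    refine ⟨hpos, ?_, hle, ?_, ?_⟩
    · rw [mul_assoc, hmul, ← hTq x hx]; exact hcb.1
    · have hlt : pA (x.2.primeFactors \ A) ≤ 2 ^ (k + 1) := by
        refine le_trans hle (le_trans ?_ hcb.2.le)
        exact Nat.le_mul_of_pos_left _ g3
      have hltr : ((pA (x.2.primeFactors \ A) : ℕ) : ℝ) ≤ (2 : ℝ) ^ ((k : ℝ) + 1) := by
        rw [Real.rpow_add (by norm_num), Real.rpow_natCast, Real.rpow_one, ← pow_succ]
        exact_mod_cast hlt
      calc ((pA (x.2.primeFactors \ A) : ℕ) : ℝ) ^ (S.s - S.tau)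
          ≤ ((2 : ℝ) ^ ((k : ℝ) + 1)) ^ (S.s - S.tau) :=
            Real.rpow_le_rpow (by positivity) hltr hst
        _ = (2 : ℝ) ^ (((k : ℝ) + 1) * (S.s - S.tau)) := by rw [← Real.rpow_mul (by norm_num)]
        _ ≤ (2 : ℝ) ^ (S.d * k) := by
            apply Real.rpow_le_rpow_of_exponent_le (by norm_num)
            have h1 : S.s - S.tau ≤ S.d / 2 := by
              have := tau_pos S
              unfold Sys.s
              linarith
            calc ((k : ℝ) + 1) * (S.s - S.tau) ≤ ((k : ℝ) + 1) * (S.d / 2) :=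
                  mul_le_mul_of_nonneg_left h1 (by positivity)
              _ ≤ S.d * k := by nlinarith
    · apply pA_small S hk hj hb (hTs hx) (A := x.2.primeFactors \ A) Finset.sdiff_subset _ le_rfl
      rw [Finset.sdiff_nonempty]
      exact (Finset.ssubset_def.1 (hTA' x hx)).2
  have hhe : -S.hh = -(1/2 - S.del) + (S.s - S.tau) := by unfold Sys.hh; ring
  set w1 : ℝ := (2 : ℝ) ^ (-(u + S.c) * k) * (2 : ℝ) ^ (S.d * k) with hw1
  set L : ℝ := (2 : ℝ) ^ k / (q * (pA A : ℕ)) with hL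
  have hLpos : 0 < L := by positivity
  have hLle : ∀ x ∈ T, L ≤ ((pA (x.2.primeFactors \ A) : ℕ) : ℝ) := by
    intro x hx
    rw [hL, div_le_iff₀ (by positivity)]
    have := (hell x hx).2.1
    have h2 : ((2 ^ k : ℕ) : ℝ) ≤ ((q * pA A * pA (x.2.primeFactors \ A) : ℕ) : ℝ) := by
      exact_mod_cast this
    push_cast at h2
    linarith
  have hb1 : ∀ x ∈ T, S.pc A x.2.primeFactors ≤ w1 := by
    intro x hx
    obtain ⟨l1, l2, l3, l4, l5⟩ := hell x hx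
    have hl0 : (0 : ℝ) < ((pA (x.2.primeFactors \ A) : ℕ) : ℝ) := by exact_mod_cast l1
    rw [pc_eq, hhe, Real.rpow_add hl0]
    exact mul_le_mul l5 l4 (by positivity) (by positivity)
  have hb2 : ∀ x ∈ T, S.pc A x.2.primeFactors ≤ L ^ (-S.hh) := by
    intro x hx
    rw [pc_eq]
    exact Real.rpow_le_rpow_of_nonpos hLpos (hLle x hx) (by have := hh_nonneg S; linarith)
  have hcard := card_cand S hk hj hb T hTs (2 ^ k + j * 2 ^ ec S.d k) (2 ^ ec S.d k) (q * pA A)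
    (by positivity) (by
    intro x hx
    obtain ⟨g1, g2, g3, g4, g5, g6, g7⟩ := pA_facts S hk hj hb (hTs hx) (hTA x hx)
    unfold cell at g6
    rw [Finset.mem_Ico] at g6
    refine ⟨g6.1, ?_, ?_⟩
    · have := g6.2
      rw [add_mul, one_mul] at this
      omega
    · rw [hTq x hx]; exact Nat.mul_dvd_mul_left q g5)
  push_cast at hcard
  have hmin0 : 0 ≤ min w1 (L ^ (-S.hh)) := le_min (by positivity) (by positivity)
  have hfirst : (2 : ℝ) ^ ec S.d k / (q * (pA A : ℕ)) * L ^ (-S.hh) ≤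
      (2 : ℝ) ^ (-(u + S.c) * k) := by
    obtain ⟨l1, l2, l3, l4, l5⟩ := hell x0 hx0
    have hl0 : (0 : ℝ) < ((pA (x0.2.primeFactors \ A) : ℕ) : ℝ) := by exact_mod_cast l1
    have hl1 : (1 : ℝ) ≤ ((pA (x0.2.primeFactors \ A) : ℕ) : ℝ) := by exact_mod_cast l1
    have e1 : (2 : ℝ) ^ ec S.d k / (q * (pA A : ℕ)) * L ^ (-S.hh) =
        (2 : ℝ) ^ ec S.d k * (2 : ℝ) ^ (-(k : ℝ)) * L ^ (1 - S.hh) := by
      have e0 : (2 : ℝ) ^ (-(k : ℝ)) = ((2 : ℝ) ^ k)⁻¹ := by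
        rw [Real.rpow_neg (by norm_num), Real.rpow_natCast]
      rw [show (1 - S.hh : ℝ) = 1 + (-S.hh) by ring, Real.rpow_add hLpos, Real.rpow_one, e0]
      have e3 : (2 : ℝ) ^ ec S.d k / (q * (pA A : ℕ)) =
          (2 : ℝ) ^ ec S.d k * ((2 : ℝ) ^ k)⁻¹ * L := by
        rw [hL]
        field_simp
      rw [e3]
      ring
    rw [e1]
    have hE := two_ec_le S k
    push_cast at hE
    have e2 : L ^ (1 - S.hh) ≤ (2 : ℝ) ^ ((1/2 - u - S.c) * k) * (2 : ℝ) ^ (S.d * k) := by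
      calc L ^ (1 - S.hh) ≤ ((pA (x0.2.primeFactors \ A) : ℕ) : ℝ) ^ (1 - S.hh) := by
            apply Real.rpow_le_rpow hLpos.le (hLle x0 hx0)
            have := hh_le_half S; linarith
        _ = ((pA (x0.2.primeFactors \ A) : ℕ) : ℝ) ^ (1/2 + S.del) *
            ((pA (x0.2.primeFactors \ A) : ℕ) : ℝ) ^ (S.s - S.tau) := by
            rw [← Real.rpow_add hl0]; congr 1; unfold Sys.hh; ring
        _ ≤ (x0.2 : ℝ) ^ (1/2 + S.del) * (2 : ℝ) ^ (S.d * k) := by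
            apply mul_le_mul _ l4 (by positivity) (by positivity)
            apply Real.rpow_le_rpow hl0.le (by exact_mod_cast l3)
            have := del_pos S; linarith
        _ ≤ _ := mul_le_mul_of_nonneg_right c7 (by positivity)
    calc (2 : ℝ) ^ ec S.d k * (2 : ℝ) ^ (-(k : ℝ)) * L ^ (1 - S.hh)
        ≤ (2 : ℝ) ^ ((k : ℝ) * (1/2 - S.d)) * (2 : ℝ) ^ (-(k : ℝ)) *
          ((2 : ℝ) ^ ((1/2 - u - S.c) * k) * (2 : ℝ) ^ (S.d * k)) := by
          apply mul_le_mul _ e2 (by positivity) (by positivity)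
          exact mul_le_mul_of_nonneg_right hE (by positivity)
      _ = (2 : ℝ) ^ (-(u + S.c) * k) := by
          rw [← Real.rpow_add (by norm_num), ← Real.rpow_add (by norm_num),
            ← Real.rpow_add (by norm_num)]
          congr 1
          ring
  calc ∑ x ∈ T, S.pc A x.2.primeFactors
      ≤ ∑ x ∈ T, min w1 (L ^ (-S.hh)) :=
        Finset.sum_le_sum (fun x hx => le_min (hb1 x hx) (hb2 x hx))
    _ = (T.card : ℝ) * min w1 (L ^ (-S.hh)) := by rw [Finset.sum_const, nsmul_eq_mul]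
    _ ≤ ((2 : ℝ) ^ ec S.d k / (q * (pA A : ℕ)) + 1) * min w1 (L ^ (-S.hh)) :=
        mul_le_mul_of_nonneg_right hcard hmin0
    _ = (2 : ℝ) ^ ec S.d k / (q * (pA A : ℕ)) * min w1 (L ^ (-S.hh)) +
          min w1 (L ^ (-S.hh)) := by ring
    _ ≤ (2 : ℝ) ^ ec S.d k / (q * (pA A : ℕ)) * L ^ (-S.hh) + w1 := by
        apply add_le_add _ (min_le_left _ _)
        exact mul_le_mul_of_nonneg_left (min_le_right _ _) (by positivity)
    _ ≤ (2 : ℝ) ^ (-(u + S.c) * k) + w1 := by linarith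
    _ ≤ w1 + w1 := by
        have : (1 : ℝ) ≤ (2 : ℝ) ^ (S.d * k) := Real.one_le_rpow (by norm_num) (by positivity)
        have h2 : 0 < (2 : ℝ) ^ (-(u + S.c) * k) := by positivity
        have := mul_le_mul_of_nonneg_left this h2.le
        linarith
    _ = 2 * ((2 : ℝ) ^ ((S.d - S.c) * k) * (2 : ℝ) ^ (-(u * k))) := by
        rw [hw1, ← Real.rpow_add (by norm_num), ← Real.rpow_add (by norm_num), ← two_mul]
        congr 2
        ring
    _ = _ := by ring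

theorem mult1 : Mult1 := by
  intro S
  refine ⟨max S.K (max ⌈100 / S.c⌉₊ 1), ?_⟩
  intro k hk0 q A
  have hkK : S.K ≤ k := le_trans (le_max_left _ _) hk0
  have hk1 : 1 ≤ k := le_trans (le_trans (le_max_right _ _) (le_max_right _ _)) hk0
  obtain ⟨hck, hdk0, hdk⟩ := large_k S
    (le_trans (le_trans (le_max_left _ _) (le_max_right _ _)) hk0)
  have h := sum_badc S hkK (fun j => ∑ x ∈ (S.Cand k j).filter
      (fun x => x.1 = q ∧ A ⊂ x.2.primeFactors), S.pc A x.2.primeFactors)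
    (2 * (2 : ℝ) ^ ((S.d - S.c) * k)) (by positivity) (by
      intro j hj
      rw [mem_badc] at hj
      exact mult_cell S hkK hk1 hj.1 hj.2 q A)
  refine le_trans h ?_
  have h8 : (3 : ℝ) * 2 ≤ (2 : ℝ) ^ (3 : ℝ) := by norm_num
  calc 3 * (2 * (2 : ℝ) ^ ((S.d - S.c) * k)) = (3 * 2) * (2 : ℝ) ^ ((S.d - S.c) * k) := by ring
    _ ≤ (2 : ℝ) ^ (3 : ℝ) * (2 : ℝ) ^ ((S.d - S.c) * k) :=
        mul_le_mul_of_nonneg_right h8 (by positivity)
    _ = (2 : ℝ) ^ (3 + (S.d - S.c) * k) := by rw [← Real.rpow_add (by norm_num)]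
    _ ≤ (2 : ℝ) ^ (-(S.c / 2) * (k : ℝ)) := by
        apply Real.rpow_le_rpow_of_exponent_le (by norm_num)
        norm_num at hdk
        nlinarith

end Pool.Agent.Helper82.KS
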